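import Pool.Agent.Run7.h819.QM.AsmC
import Pool.Agent.N879.QM.Fin

set_option autoImplicit false

/-!
# Moments of quadratic Dirichlet `L`-functions of every order over all fundamental discriminants

Let `s = ±1` and let `d` run over **all** the fundamental discriminants of sign `s` with `1 < |d| < X`, that is, let
`χ = χ_d` run over all the real primitive Dirichlet characters of conductor `q = |d|`, `2 ≤ q < X`, with `χ(-1) = s`.
If Q1 holds for `k`, then the moments of the products of `k` shifted `L`-functions on the critical line obey the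
asymptotic formula predicted by Conrey, Farmer, Keating, Rubinstein and Snaith with a power saving. We show,
unconditionally, for every `k`: for `k = 1, 2` and all `θ > 0`, and for `k ≥ 3` and all `θ > 1 - 2 / (5 (k - 2))`
(`θ > 3/5` for `k = 3`, `θ > 4/5` for `k = 4`) there is `δ > 0` such that

`∑_d ∏_j L(1/2 + i α_j, χ_d) = (3/π²) X A_k(iα) ∏_{i ≤ j} ζ(1 + i α_i + i α_j) + O(X^(1 - δ))`

for all the shift vectors `α` in the cube `[-X^θ, X^θ]^k` outside a set of measure at most `X^(kθ - δ)`. No discriminant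
is removed. (For almost all shifts of this size the terms of the recipe with swapped shifts are smaller than the error
term.) The starting result `MP_ea46f5_nt`, `GenericShifts`, has this for all `0 < θ ≤ 1`, but only after the removal of
a set of up to `X^(1 - δ)` discriminants; for `θ > 1` the formula is proved in the library `Pool.Agent.N879.QM`
(`all_main`), and it is used here for that range.

The proof for `θ ≤ 1`: as an operator between the family and the interval of the shifts, `L` minus a Dirichlet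
polynomial of length `X^(2/5)` saves `X^(1/5)` (Heath-Brown's large sieve for real characters over short blocks for the
pieces of length at most `X^(6/5)`, the Polya-Vinogradov inequality beyond); the second moments of the single
`L`-functions over `[-A, A]`, `A = X^θ`, are at most `A + (q A)^(1/2)` up to `X^ε` for each `q`, and at most `A` on
average over the family; a telescoping argument that keeps track of the second moment of each `L`-function separately
replaces the factors by the long polynomials; a second telescoping replaces these by polynomials of length `X^η`, and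
these have no large second moments.
-/

namespace Pool.Agent.Results.MP_fed7ff_nt.AllDiscriminants

open Complex MeasureTheory

noncomputable section

/-- The characters `χ_d` of the fundamental discriminants `d` of sign `s` with `|d| = q` (`q ≥ 2`): the real primitive
characters modulo `q` with `χ(-1) = s`. -/
def chars (s : ℤ) (q : ℕ) : Set (DirichletCharacter ℂ q) :=
  {χ | χ.IsPrimitive ∧ χ ^ 2 = 1 ∧ χ (-1) = (s : ℂ)}

/-- The `L`-function of a Dirichlet character modulo `q ≥ 1` (the analytic continuation of `∑ χ(n) n^(-z)`). -/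
def L {q : ℕ} (χ : DirichletCharacter ℂ q) (z : ℂ) : ℂ :=
  if h : q ≠ 0 then haveI : NeZero q := ⟨h⟩; DirichletCharacter.LFunction χ z else 0

/-- The shifted moment: the sum of `∏_j L(1/2 + i α_j, χ_d)` over all the fundamental discriminants `d` of sign `s`
with `2 ≤ |d| < X`. -/
def moment {k : ℕ} (s : ℤ) (X : ℝ) (α : Fin k → ℝ) : ℂ :=
  ∑ q ∈ Finset.Ico 2 ⌈X⌉₊, ∑ᶠ χ ∈ chars s q, ∏ j, L χ (1 / 2 + I * (α j : ℂ))

/-- The local factor of `A_k(z_1, …, z_k)` at the prime `p`. -/
def localFactor {k : ℕ} (z : Fin k → ℂ) (p : ℕ) : ℂ :=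
  (∏ i, ∏ j ∈ Finset.Ici i, (1 - (p : ℂ) ^ (-(1 + z i + z j)))) *
    (1 / 2 * ((∏ j, (1 - (p : ℂ) ^ (-(1 / 2 + z j)))⁻¹) + ∏ j, (1 + (p : ℂ) ^ (-(1 / 2 + z j)))⁻¹) + 1 / (p : ℂ)) *
    (1 + 1 / (p : ℂ))⁻¹

/-- The Euler product `A_k(z_1, …, z_k)`. -/
def A {k : ℕ} (z : Fin k → ℂ) : ℂ := ∏' p : Nat.Primes, localFactor z p

/-- `A_k(z) ∏_{i ≤ j} ζ(1 + z_i + z_j)`. -/
def mainTerm {k : ℕ} (z : Fin k → ℂ) : ℂ := A z * ∏ i, ∏ j ∈ Finset.Ici i, riemannZeta (1 + z i + z j)

lemma mainTerm_eq {k : ℕ} (z : Fin k → ℂ) : mainTerm z = Pool.Agent.N879.QM.MT z := by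
  unfold mainTerm Pool.Agent.N879.QM.MT A Pool.Agent.N879.QM.Ak
  rw [← Pool.Agent.N879.QM.prod_Pr (fun i j => riemannZeta (1 + z i + z j))]
  congr 1
  refine tprod_congr fun p => ?_
  unfold localFactor Pool.Agent.N879.QM.loc
  rw [← Pool.Agent.N879.QM.prod_Pr (fun i j => 1 - ((p : ℕ) : ℂ) ^ (-(1 + z i + z j)))]

lemma moment_eq {k : ℕ} (s : ℤ) (X : ℝ) (α : Fin k → ℝ) :
    moment s X α = ∑ q ∈ Pool.Agent.N879.QM.Q s X, ∏ j, Pool.Agent.N879.QM.LL s q
      (Pool.Agent.N879.QM.pt (α j)) :=
  Pool.Agent.N879.QM.mom_eq Pool.Agent.N879.QM.t_UNI s X α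

/-- For every `k ≥ 1`, every sign `s` and every `θ > 0`, with `θ > 1 - 2 / (5 (k - 2))` if `k ≥ 3`, there are `δ > 0`
and `X₀` such that for all `X ≥ X₀` the shift vectors `α` with `|α_j| ≤ X^θ` and
`|∑_d ∏_j L(1/2 + i α_j, χ_d) - (3/π²) X A_k(iα) ∏_{i ≤ j} ζ(1 + i α_i + i α_j)| > X^(1 - δ)`, the sum over all the
fundamental discriminants `d` of sign `s` with `2 ≤ |d| < X`, form a set of measure at most `X^(kθ - δ)`. -/
theorem result (k : ℕ) (hk : 1 ≤ k) (s : ℤ) (hs : s = 1 ∨ s = -1) (θ : ℝ) (hθ : 0 < θ)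
    (hkθ : k ≤ 2 ∨ 1 - 2 / (5 * ((k : ℝ) - 2)) < θ) :
    ∃ δ X₀ : ℝ, 0 < δ ∧ ∀ X : ℝ, X₀ ≤ X →
      volume {α : Fin k → ℝ | (∀ j, |α j| ≤ X ^ θ) ∧
        X ^ (1 - δ) < ‖moment s X α - (3 / (Real.pi : ℂ) ^ 2) * X * mainTerm (fun j => I * (α j : ℂ))‖} ≤
      ENNReal.ofReal (X ^ (k * θ - δ)) := by
  obtain ⟨δ, X₀, hδ, h⟩ := Run7.h819.QM.all_mainC k s θ hk hs hθ hkθ
  refine ⟨δ, X₀, hδ, fun X hX => ?_⟩
  have h1 := h X hX
  rw [← Pool.Agent.N879.QM.vol_mS] at h1
  refine le_trans (le_of_eq ?_) h1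
  congr 1
  ext α
  have e2 : (3 / (Real.pi : ℂ) ^ 2) * X = ((Pool.Agent.N879.QM.c0 * X : ℝ) : ℂ) := by
    unfold Pool.Agent.N879.QM.c0
    push_cast
    ring
  simp only [Set.mem_setOf_eq, moment_eq, e2, mainTerm_eq]
  rfl

end

end Pool.Agent.Results.MP_fed7ff_nt.AllDiscriminants
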