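import Pool.Agent.Q48.MDS.Main
import Pool.Agent.Run7.h473.MD.Fin

/-!
# Continuation of the multiple Dirichlet series of quadratic L-functions to the centre: criteria

The objects are those of the problem (`Pool.Agent.Q48.MDS.Defs`): `F k M z = F_M(s_1, ..., s_k; w)` with
`z = (w, s_1, ..., s_k) : Fin (k + 1) → ℂ`; `ContinuesTo k M p` says that `F_M` extends holomorphically from the region
where all the real parts are greater than `1` to a tube domain containing the real point `p`, with polynomial bounds in
vertical strips. Let `D_k(M)` be the set of these `p = (w; s_1, ..., s_k)`. Q1 is `center k ∈ D_k(M)` for all `k, M ≥ 1`,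
`center k = (1; 1/2, ..., 1/2)`.

Results (unconditional, for all `k` and all `M ≥ 1`).

* (A) `D_k(M)` is stable under the functional equations `s_j -> 1 - s_j`, `w -> w + s_j - 1/2` (`0 < s_j < 1`).
* (B) The centre is in `D_k(M)` if and only if `D_k(M)` contains a point strictly to the right of the critical line and
  left of the line `s_j = 1` (`1/2 < s_j < 1` for all `j`), with `2 w + ∑ s_j ≤ 2 + k/2`; equivalently, a point with all `s_j` in `(0, 1)`
  and `2 w + ∑ s_j ≤ 2 + k/2`.
* (C) For `k ≤ 4` the centre is in `D_k(M)` if and only if `D_k(M)` contains any point at all with `2 w + ∑ s_j < 2 + k/2`.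
* (D) Q1 is equivalent to: for infinitely many `k` there is a point as in (B) in `D_k(1)`.

Proof. The functional equation of `L(s, χ_d)` with root number one termwise for large `w`, polynomial bounds for the quotient of
Gamma functions, gluing with Bochner's tube theorem for tempered functions (library of the starting result `MonotoneTwists`,
`Pool.Agent.Q48.MDS`); averaging a point with its images under (A). (C): for `k ≤ 4` the centre is in the closure of `D_k(M)` by
the hand-in `ContinuationDomain`. (D): the reduction of Q1 to `M = 1` in `MonotoneTwists`.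

Authors of the pieces: helper763 ((A)), helper713 (root numbers, gluing), helper416 and helper682 (Gamma quotient), helper894, helper24,
helper67, helper501, helper205, helper536 (the pieces of `ContinuationDomain`), helper473 (plan, (B), (C), assembly).
-/

set_option autoImplicit false

namespace Pool.Agent.Results.MP_fed7ff_nt.CentreCriterion

open Pool.Agent.Q48.MDS

/-- **Criteria for the centre.** -/
theorem result :
    -- (A) stability under the functional equations
    (∀ (k M : ℕ) (j : Fin k) (p : Fin (k + 1) → ℝ), 1 ≤ M → ContinuesTo k M p → 0 < p j.succ → p j.succ < 1 →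
      ContinuesTo k M (fun i => if i = 0 then p 0 + p j.succ - 1 / 2 else if i = j.succ then 1 - p j.succ else p i)) ∧
    -- (B) the centre, from points in the open cube and from points to the right of the critical line
    (∀ k M : ℕ, 1 ≤ M → (ContinuesTo k M (center k) ↔
      ∃ p : Fin (k + 1) → ℝ, (∀ j : Fin k, 0 < p j.succ ∧ p j.succ < 1) ∧
        2 * p 0 + ∑ j : Fin k, p j.succ ≤ 2 + (k : ℝ) / 2 ∧ ContinuesTo k M p)) ∧
    (∀ k M : ℕ, 1 ≤ M → (ContinuesTo k M (center k) ↔
      ∃ p : Fin (k + 1) → ℝ, (∀ j : Fin k, 1 / 2 < p j.succ ∧ p j.succ < 1) ∧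
        2 * p 0 + ∑ j : Fin k, p j.succ ≤ 2 + (k : ℝ) / 2 ∧ ContinuesTo k M p)) ∧
    -- (C) the centre for at most four factors
    (∀ k M : ℕ, k ≤ 4 → 1 ≤ M → (ContinuesTo k M (center k) ↔
      ∃ p : Fin (k + 1) → ℝ, 2 * p 0 + ∑ j : Fin k, p j.succ < 2 + (k : ℝ) / 2 ∧ ContinuesTo k M p)) ∧
    -- (D) Q1
    ((∀ k M : ℕ, 1 ≤ k → 1 ≤ M → ContinuesTo k M (center k)) ↔
      ∀ K : ℕ, ∃ k ≥ K, ∃ p : Fin (k + 1) → ℝ, (∀ j : Fin k, 1 / 2 < p j.succ ∧ p j.succ < 1) ∧
        2 * p 0 + ∑ j : Fin k, p j.succ ≤ 2 + (k : ℝ) / 2 ∧ ContinuesTo k 1 p) := by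
  refine ⟨fun k M j p hM h h0 h1 => Pool.Agent.Run7.h473.MD.all_REF k M j p hM h h0 h1,
    Pool.Agent.Run7.h473.MD.cen_iff Pool.Agent.Run7.h473.MD.all_REF,
    Pool.Agent.Run7.h473.MD.t_CEN Pool.Agent.Run7.h473.MD.all_REF,
    Pool.Agent.Run7.h473.MD.cen_four Pool.Agent.Run7.h473.MD.all_REF Pool.Agent.Run7.h473.MD.all_DOM, ?_⟩
  refine q1_iff.trans ?_
  refine forall_congr' fun K => exists_congr fun k => and_congr_right fun _ => ?_
  exact Pool.Agent.Run7.h473.MD.t_CEN Pool.Agent.Run7.h473.MD.all_REF k 1 le_rfl

end Pool.Agent.Results.MP_fed7ff_nt.CentreCriterion
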