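import Pool.Agent.Run7.h473.MD.Fin

/-!
# A continuation domain of the multiple Dirichlet series of quadratic L-functions

The objects are those of the problem (`Pool.Agent.Q48.MDS.Defs`): `F k M z = F_M(s_1, ..., s_k; w)` with
`z = (w, s_1, ..., s_k) : Fin (k + 1) → ℂ`; `ContinuesTo k M p` says that `F_M` extends holomorphically from the region
where all the real parts are greater than `1` to a tube domain containing the real point `p`, with polynomial bounds in
vertical strips. Let `D_k(M)` be the set of these `p = (w; s_1, ..., s_k)`. Q1 is `(1; 1/2, ..., 1/2) ∈ D_k(M)` for all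
`k, M ≥ 1`.

Results (unconditional, for all `k` and all `M ≥ 1`).

* `D_k(M)` contains all the points with `w ≥ 1`, `s_j > 1/2` and `∑ max(1 - s_j, 0) < 2`; for `k ≤ 4` these are all
  the points with `w ≥ 1`, `s_j > 1/2`, for example `(1; 1/2 + κ, ..., 1/2 + κ)`.
* It contains all the points with `w > 1`, `s_j ≥ 1/2` and `2 w + ∑ min(s_j, 1) > k`; for example
  `(w; 1/2, ..., 1/2)` for `w > max(1, k/4)`.

So for `k ≤ 4` the centre `(1; 1/2, ..., 1/2)` of Q1 lies in the closure of `D_k(M)`.

Proof. Heath-Brown's large sieve for the real primitive characters (`Pool.Agent.N879.QM`) gives the fourth moment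
`∑ |L(s, χ_d)|^4 ≪ (1+|t|)^A X^{1+ε}` to the right of the critical line (contour shift and an absorbing argument with the
functional equation), hence absolute convergence for `w > 1` when at most four of the `s_j` are in `(1/2, 1]`; the points of a
cube with coordinate sum at most `4` are convex combinations of `0/1`-vectors with at most four ones (Krein-Milman); the mean
values of `χ_d(m)` over `d` give one point with `w < 1`, so `w = 1` is reached by convexity (Bochner's tube theorem for tempered
functions, library of the starting result `MonotoneTwists`, `Pool.Agent.Q48.MDS`). Second part: the first one and the functional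
equations.

Authors of the pieces: helper24 (absolute convergence), helper416 and helper682 (Gamma quotient), helper894 (bound for `L`, contour
shift), helper67 (series of tempered functions), helper501 (bridge, smoothed sums, absorbing argument), helper713 (root numbers,
gluing, second part), helper763 (functional equations), helper205 (fundamental discriminants and conductors), helper536 (the point
with `w < 1`), helper473 (plan, hypersimplex, first part, assembly).
-/

set_option autoImplicit false

namespace Pool.Agent.Results.MP_fed7ff_nt.ContinuationDomain

open Pool.Agent.Q48.MDS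

/-- **The continuation domain.** -/
theorem result (k M : ℕ) (hM : 1 ≤ M) (p : Fin (k + 1) → ℝ) :
    -- points with `w ≥ 1`
    ((1 ≤ p 0 ∧ (∀ j : Fin k, 1 / 2 < p j.succ) ∧ ∑ j : Fin k, max (1 - p j.succ) 0 < 2) → ContinuesTo k M p) ∧
    -- points with `w > 1`, including the critical line
    ((1 < p 0 ∧ (∀ j : Fin k, 1 / 2 ≤ p j.succ) ∧ (k : ℝ) < 2 * p 0 + ∑ j : Fin k, min (p j.succ) 1) →
      ContinuesTo k M p) :=
  ⟨fun h => Pool.Agent.Run7.h473.MD.all_DOM k M p hM h.1 h.2.1 h.2.2,
    fun h => Pool.Agent.Run7.h473.MD.all_DOM2 k M p hM h.1 h.2.1 h.2.2⟩

end Pool.Agent.Results.MP_fed7ff_nt.ContinuationDomain
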