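import Pool.Agent.Run7.h473.MD.Fin2

/-!
# Smoothed moments of quadratic L-functions to the right of the critical line

The objects are those of the problem (`Pool.Agent.Q48.MDS.Defs`): `FundDisc d`, the Kronecker symbol `kron d n`, and
`Lchi d s = L(s, χ_d)` for `Re s > 1`. `L d` is the analytic continuation of `Lchi d` (it is unique, by the identity theorem).

**Theorem.** For every number `k` of factors, all `M ≥ 1` and all complex `s_1, ..., s_k` with `Re s_j > 1/2` and
`∑ max(1 - Re s_j, 0) < 2` (for `k ≤ 4`: all `s_j` with `Re s_j > 1/2`) there is `δ > 0` with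

`∑_{d ≥ 2} χ_d(M) L(s_1, χ_d) ⋯ L(s_k, χ_d) e^{-d/X} = T_M(s) X + O(X^{1-δ})`,

`d` over the positive fundamental discriminants; `T_M(s) = (2 ζ(2))⁻¹ ∑_{M n_1 ⋯ n_k = □} a(M n_1 ⋯ n_k) ∏ n_j^{-s_j}` is the
series of the page, absolutely convergent for `Re s_j > 1/2`.

This is the asymptotic formula with power saving which Q1 would give on the critical line, for up to four factors arbitrarily
near the critical line. Proof: `F_M` continues with polynomial bounds to the tube over a neighbourhood of `(1; Re s_j)` (part (B)
of `ContinuationDomain`, which rests on Heath-Brown's large sieve); contour shift with the kernel `Γ`; the constant is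
holomorphic in `s` and equal to `T_M(s)` for large `Re s_j` by the mean values of `χ_d(m)`, so it is `T_M(s)` everywhere.

Authors of the pieces: helper327 (contour shift), helper617 (the limit for `Re s_j > 1`), helper379 (convergence and
holomorphy of `T_M`), helper763 (setup of the continuation), helper299 (a second proof
of the moments from the continuation), and for the continuation helper24, helper416,
helper682, helper894, helper67, helper501, helper713, helper763, helper205, helper536; helper473 (plan, the moments from the
continuation, hypersimplex, identity theorem, assembly).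
-/

set_option autoImplicit false

namespace Pool.Agent.Results.MP_fed7ff_nt.SmoothedMoments

open Pool.Agent.Q48.MDS Pool.Agent.Run7.h473.MD

/-- **Smoothed moments with power saving to the right of the critical line.** -/
theorem result :
    ∃ L : ℕ → ℂ → ℂ,
      -- `L d` is the analytic continuation of `L(s, χ_d)`
      (∀ d : ℕ, 2 ≤ d → FundDisc d → Differentiable ℂ (L d) ∧ ∀ s : ℂ, 1 < s.re → L d s = Lchi d s) ∧
      ∀ (k M : ℕ) (s : Fin k → ℂ), 1 ≤ M → (∀ j, 1 / 2 < (s j).re) → ∑ j : Fin k, max (1 - (s j).re) 0 < 2 →
        -- the series `T_M(s)` and the smoothed moments converge absolutely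
        Summable (fun n => ‖tmt k M s n‖) ∧
        (∀ X : ℝ, 1 ≤ X → Summable (mterm L k M s X)) ∧
        -- the asymptotic formula with power saving
        ∃ δ C : ℝ, 0 < δ ∧ ∀ X : ℝ, 1 ≤ X →
          ‖∑' d : ℕ, mterm L k M s X d - TM k M s * X‖ ≤ C * X ^ (1 - δ) :=
  fin_all

end Pool.Agent.Results.MP_fed7ff_nt.SmoothedMoments
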